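import Mathlib

namespace Pool.Agent.Results.MP_cb2837_co.Quarter

open Finset Filter Topology

def InE {n : ℕ} (A B : Finset (Fin n)) (x y : Fin n) : Prop := (x ∈ A ∧ y ∈ B) ∨ (x ∈ B ∧ y ∈ A)

instance {n : ℕ} (A B : Finset (Fin n)) (x y : Fin n) : Decidable (InE A B x y) := by
  unfold InE; infer_instance

def OddCover (n m : ℕ) : Prop :=
  ∃ A B C D : Fin m → Finset (Fin n),
    (∀ i, (A i).Nonempty ∧ (B i).Nonempty ∧ Disjoint (A i) (B i) ∧
      (C i).Nonempty ∧ (D i).Nonempty ∧ Disjoint (C i) (D i)) ∧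
    ∀ x y z w : Fin n, x ≠ y → z ≠ w →
      Odd (univ.filter (fun i => InE (A i) (B i) x y ∧ InE (C i) (D i) z w)).card

noncomputable def g (n : ℕ) : ℕ := sInf {m | OddCover n m}

theorem of_fam {n : ℕ} {ι : Type} [Fintype ι] (A B C D : ι → Finset (Fin n))
    (h1 : ∀ i, Disjoint (A i) (B i) ∧ Disjoint (C i) (D i))
    (h2 : ∀ x y z w : Fin n, x ≠ y → z ≠ w →
      Odd (univ.filter (fun i => InE (A i) (B i) x y ∧ InE (C i) (D i) z w)).card) :
    ∃ m ≤ Fintype.card ι, OddCover n m := by
  classical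
  set s := univ.filter
    (fun i => (A i).Nonempty ∧ (B i).Nonempty ∧ (C i).Nonempty ∧ (D i).Nonempty) with hs
  set e : Fin s.card → ι := fun j => (s.equivFin.symm j : ι) with he
  have hm : ∀ j, e j ∈ s := fun j => (s.equivFin.symm j).2
  refine ⟨s.card, card_le_univ _, A ∘ e, B ∘ e, C ∘ e, D ∘ e, ?_, ?_⟩
  · intro j
    have := (mem_filter.1 (hm j)).2
    exact ⟨this.1, this.2.1, (h1 _).1, this.2.2.1, this.2.2.2, (h1 _).2⟩
  · intro x y z w hxy hzw
    convert h2 x y z w hxy hzw using 1
    apply card_bij (fun j _ => e j)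
    · intro j hj
      simpa using hj
    · intro j _ j' _ h
      exact s.equivFin.symm.injective (Subtype.ext h)
    · intro i hi
      have hi' := (mem_filter.1 hi).2
      have his : i ∈ s := by
        rw [hs, mem_filter]
        refine ⟨mem_univ _, ?_, ?_, ?_, ?_⟩
        · rcases hi'.1 with h | h
          exacts [⟨_, h.1⟩, ⟨_, h.2⟩]
        · rcases hi'.1 with h | h
          exacts [⟨_, h.2⟩, ⟨_, h.1⟩]
        · rcases hi'.2 with h | h
          exacts [⟨_, h.1⟩, ⟨_, h.2⟩]
        · rcases hi'.2 with h | h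
          exacts [⟨_, h.2⟩, ⟨_, h.1⟩]
      have e1 : e (s.equivFin ⟨i, his⟩) = i := by simp [he]
      refine ⟨s.equivFin ⟨i, his⟩, ?_, e1⟩
      simp only [mem_filter, mem_univ, true_and, Function.comp, e1]
      exact hi'

theorem restrict {n n' m : ℕ} (h : n ≤ n') (hc : OddCover n' m) : ∃ m' ≤ m, OddCover n m' := by
  obtain ⟨A, B, C, D, h1, h2⟩ := hc
  have := of_fam (n := n) (fun i => univ.filter (fun x => Fin.castLE h x ∈ A i))
    (fun i => univ.filter (fun x => Fin.castLE h x ∈ B i))
    (fun i => univ.filter (fun x => Fin.castLE h x ∈ C i))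
    (fun i => univ.filter (fun x => Fin.castLE h x ∈ D i)) (by
      intro i
      constructor
      · rw [disjoint_left]
        intro x hx hy
        exact disjoint_left.1 (h1 i).2.2.1 (mem_filter.1 hx).2 (mem_filter.1 hy).2
      · rw [disjoint_left]
        intro x hx hy
        exact disjoint_left.1 (h1 i).2.2.2.2.2 (mem_filter.1 hx).2 (mem_filter.1 hy).2) (by
      intro x y z w hxy hzw
      have := h2 (Fin.castLE h x) (Fin.castLE h y) (Fin.castLE h z) (Fin.castLE h w)
        (fun e => hxy (Fin.castLE_injective h e)) (fun e => hzw (Fin.castLE_injective h e))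
      simpa [InE] using this)
  simpa using this

theorem ind {n : ℕ} {A B : Finset (Fin n)} (h : Disjoint A B) (x y : Fin n) :
    (if InE A B x y then 1 else 0 : ZMod 2) =
      (if x ∈ A then 1 else 0) * (if y ∈ B then 1 else 0) +
      (if x ∈ B then 1 else 0) * (if y ∈ A then 1 else 0) := by
  have : x ∈ A → x ∉ B := fun h' => disjoint_left.1 h h'
  unfold InE
  by_cases a : x ∈ A <;> by_cases b : x ∈ B <;> by_cases c : y ∈ A <;> by_cases d : y ∈ B <;>
    simp_all

theorem lower {n m : ℕ} (hn : Even n) (hc : OddCover n m) : n * n ≤ 4 * m := by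
  obtain ⟨A, B, C, D, h1, h2⟩ := hc
  set Φ : (Fin n × Fin n → ZMod 2) → (Fin m × Bool × Bool → ZMod 2) := fun v q =>
    ∑ p : Fin n × Fin n, (if p.1 ∈ (if q.2.1 then A q.1 else B q.1) then 1 else 0) *
      (if p.2 ∈ (if q.2.2 then C q.1 else D q.1) then 1 else 0) * v p with hΦ
  have n0 : (n : ZMod 2) = 0 := (ZMod.natCast_eq_zero_iff_even).2 hn
  have ker : ∀ v, Φ v = 0 → v = 0 := by
    intro v hv
    have key : ∀ x z, ∑ p : Fin n × Fin n,
        (1 - if p.1 = x then 1 else 0) * (1 - if p.2 = z then 1 else 0) * v p = 0 := by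
      intro x z
      have e : ∀ p : Fin n × Fin n,
          ((1 - if p.1 = x then 1 else 0) * (1 - if p.2 = z then 1 else 0) : ZMod 2) =
          ∑ i, (if InE (A i) (B i) x p.1 then 1 else 0) * (if InE (C i) (D i) z p.2 then 1 else 0) := by
        intro p
        by_cases c1 : p.1 = x
        · have : ∀ i, ¬ InE (A i) (B i) x p.1 := by
            intro i h
            rw [c1] at h
            rcases h with h | h
            exacts [disjoint_left.1 (h1 i).2.2.1 h.1 h.2, disjoint_left.1 (h1 i).2.2.1 h.2 h.1]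
          simp only [this, if_false, zero_mul, sum_const_zero]
          simp [c1]
        by_cases c2 : p.2 = z
        · have : ∀ i, ¬ InE (C i) (D i) z p.2 := by
            intro i h
            rw [c2] at h
            rcases h with h | h
            exacts [disjoint_left.1 (h1 i).2.2.2.2.2 h.1 h.2, disjoint_left.1 (h1 i).2.2.2.2.2 h.2 h.1]
          simp only [this, if_false, mul_zero, sum_const_zero]
          simp [c2]
        have := (ZMod.natCast_eq_one_iff_odd).2 (h2 x p.1 z p.2 (Ne.symm c1) (Ne.symm c2))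
        rw [card_filter] at this
        push_cast at this
        simp only [c1, c2, if_false, sub_zero, mul_one]
        refine this.symm.trans ?_
        apply sum_congr rfl
        intro i _
        by_cases a : InE (A i) (B i) x p.1 <;> by_cases b : InE (C i) (D i) z p.2 <;> simp [a, b]
      simp only [e, sum_mul]
      rw [sum_comm]
      apply sum_eq_zero
      intro i _
      have a1 := congrFun hv (i, true, true)
      have a2 := congrFun hv (i, true, false)
      have a3 := congrFun hv (i, false, true)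
      have a4 := congrFun hv (i, false, false)
      simp only [hΦ, if_true, Bool.false_eq_true, if_false, Pi.zero_apply] at a1 a2 a3 a4
      simp only [ind (h1 i).2.2.1, ind (h1 i).2.2.2.2.2]
      have b5 : ∀ f1 f2 f3 f4 : Fin n × Fin n → ZMod 2, ∀ c1 c2 c3 c4 : ZMod 2,
          ∑ p, f1 p = 0 → ∑ p, f2 p = 0 → ∑ p, f3 p = 0 → ∑ p, f4 p = 0 →
          ∑ p, (c1 * f1 p + c2 * f2 p + c3 * f3 p + c4 * f4 p) = 0 := by
        intro f1 f2 f3 f4 c1 c2 c3 c4 e1 e2 e3 e4
        simp only [sum_add_distrib, ← mul_sum, e1, e2, e3, e4]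
        ring
      refine Eq.trans ?_ (b5 _ _ _ _
        ((if x ∈ B i then 1 else 0) * (if z ∈ D i then 1 else 0))
        ((if x ∈ B i then 1 else 0) * (if z ∈ C i then 1 else 0))
        ((if x ∈ A i then 1 else 0) * (if z ∈ D i then 1 else 0))
        ((if x ∈ A i then 1 else 0) * (if z ∈ C i then 1 else 0)) a1 a2 a3 a4)
      apply sum_congr rfl
      intro p _
      ring
    have k2 : ∀ x z, (∑ y, ∑ w, v (y, w)) - (∑ y, v (y, z)) - (∑ w, v (x, w)) + v (x, z) = 0 := by
      intro x z
      rw [← key x z, Fintype.sum_prod_type]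
      simp only [sub_mul, mul_sub, one_mul, mul_one, sum_sub_distrib, ite_mul, zero_mul, mul_ite,
        mul_zero, sum_ite_eq', mem_univ, if_true, sum_ite_irrel, sum_const_zero]
      ring
    have r1 : ∀ x, (∑ w, v (x, w)) = ∑ y, ∑ w, v (y, w) := by
      intro x
      have := sum_congr rfl (fun z (_ : z ∈ univ) => k2 x z)
      simp only [sum_add_distrib, sum_sub_distrib, sum_const, card_univ, Fintype.card_fin,
        nsmul_eq_mul, n0, zero_mul] at this
      rw [sum_comm] at this
      linear_combination this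
    have r2 : ∀ z, (∑ y, v (y, z)) = ∑ y, ∑ w, v (y, w) := by
      intro z
      have := sum_congr rfl (fun x (_ : x ∈ univ) => k2 x z)
      simp only [sum_add_distrib, sum_sub_distrib, sum_const, card_univ, Fintype.card_fin,
        nsmul_eq_mul, n0, zero_mul] at this
      linear_combination this
    have r3 : ∑ y, ∑ w, v (y, w) = 0 := by
      rw [sum_congr rfl (fun x _ => r1 x)]
      simp [n0]
    funext p
    have := k2 p.1 p.2
    rw [r1, r2, r3] at this
    simpa using this
  have inj : Function.Injective Φ := by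
    intro v v' h
    apply sub_eq_zero.1 (ker _ _)
    funext q
    have := congrFun h q
    simp only [hΦ, Pi.sub_apply, mul_sub, sum_sub_distrib, Pi.zero_apply] at this ⊢
    exact sub_eq_zero.2 this
  have := Fintype.card_le_of_injective Φ inj
  simp only [Fintype.card_fun, ZMod.card, Fintype.card_prod, Fintype.card_fin, Fintype.card_bool] at this
  have := (Nat.pow_le_pow_iff_right (by norm_num)).1 this
  omega

def mu (i j : ℕ) : ZMod 2 :=
  (if j < i then 1 else 0) + (if (i % 4 = 1 ∧ j = i + 2) ∨ (i % 4 = 3 ∧ j + 2 = i) then 1 else 0)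

theorem mu_row (t i : ℕ) (hi : i < 4 * t) : ∑ j : Fin (4 * t), mu i j = 0 := by
  rw [Fin.sum_univ_eq_sum_range (fun j => mu i j)]
  unfold mu
  rw [sum_add_distrib, sum_boole, sum_boole]
  have e1 : (range (4 * t)).filter (fun j => j < i) = range i := by
    ext j; simp; omega
  rw [e1, card_range, ← Nat.cast_add, ZMod.natCast_eq_zero_iff_even, Nat.even_iff]
  by_cases c1 : i % 4 = 1
  · have : (range (4 * t)).filter
        (fun j => (i % 4 = 1 ∧ j = i + 2) ∨ (i % 4 = 3 ∧ j + 2 = i)) = {i + 2} := by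
      ext j; simp; omega
    rw [this, card_singleton]; omega
  by_cases c3 : i % 4 = 3
  · have : (range (4 * t)).filter
        (fun j => (i % 4 = 1 ∧ j = i + 2) ∨ (i % 4 = 3 ∧ j + 2 = i)) = {i - 2} := by
      ext j; simp; omega
    rw [this, card_singleton]; omega
  · have : (range (4 * t)).filter
        (fun j => (i % 4 = 1 ∧ j = i + 2) ∨ (i % 4 = 3 ∧ j + 2 = i)) = ∅ := by
      ext j; simp; omega
    rw [this, card_empty]; omega

theorem mu_sym (i l : ℕ) (h : i ≠ l) : mu i l + mu l i = 1 := by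
  unfold mu
  split_ifs <;> first | omega | decide

theorem mu_self (i : ℕ) : mu i i = 0 := by
  unfold mu
  split_ifs <;> first | omega | decide

def sd (t : ℕ) (c : ZMod 2) (j : Fin (4 * t)) : Finset (Fin (8 * t)) :=
  univ.filter (fun x => x.1 / 2 ≠ j.1 ∧ mu (x.1 / 2) j + (x.1 : ZMod 2) = c)

theorem single (t : ℕ) (x y : Fin (8 * t)) (hxy : x ≠ y) :
    Odd (univ.filter (fun j => InE (sd t 0 j) (sd t 1 j) x y)).card := by
  rw [← ZMod.natCast_eq_one_iff_odd, card_filter]
  push_cast
  have hx := x.2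
  have hy := y.2
  have hne : x.1 ≠ y.1 := fun h => hxy (Fin.ext h)
  set i : Fin (4 * t) := ⟨x.1 / 2, by omega⟩ with hi
  set l : Fin (4 * t) := ⟨y.1 / 2, by omega⟩ with hl
  have z2 : ∀ a b : ZMod 2, (if (a = 0 ∧ b = 1) ∨ (a = 1 ∧ b = 0) then 1 else 0 : ZMod 2) = a + b := by
    decide
  have e : ∀ j : Fin (4 * t), (if InE (sd t 0 j) (sd t 1 j) x y then 1 else 0 : ZMod 2) =
      if j = i ∨ j = l then 0 else (mu i j + x.1) + (mu l j + y.1) := by
    intro j
    by_cases c : j = i ∨ j = l
    · rw [if_pos c, if_neg]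
      simp only [InE, sd, mem_filter, mem_univ, true_and]
      rcases c with c | c <;> subst c <;> simp [hi, hl]
    · rw [if_neg c, ← z2]
      push Not at c
      have c1 : x.1 / 2 ≠ j.1 := fun h => c.1 (Fin.ext h.symm)
      have c2 : y.1 / 2 ≠ j.1 := fun h => c.2 (Fin.ext h.symm)
      simp only [InE, sd, mem_filter, mem_univ, true_and, c1, c2, ne_eq, not_false_eq_true, hi, hl]
  simp only [e]
  have t0 : ((4 * t : ℕ) : ZMod 2) = 0 := (ZMod.natCast_eq_zero_iff_even).2 ⟨2 * t, by ring⟩
  have tot : ∑ j : Fin (4 * t), ((mu i j + x.1) + (mu l j + y.1)) = 0 := by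
    simp only [sum_add_distrib, mu_row t i i.2, mu_row t l l.2, sum_const, card_univ,
      Fintype.card_fin, nsmul_eq_mul, t0]
    ring
  have two : (2 : ZMod 2) = 0 := rfl
  by_cases c : i = l
  · have hxy2 : ((x.1 + y.1 : ℕ) : ZMod 2) = 1 := by
      rw [ZMod.natCast_eq_one_iff_odd, Nat.odd_iff]
      have : x.1 / 2 = y.1 / 2 := congrArg Fin.val c
      omega
    push_cast at hxy2
    have : ∀ j : Fin (4 * t), (if j = i ∨ j = l then 0 else (mu i j + x.1) + (mu l j + y.1) : ZMod 2) =
        ((mu i j + x.1) + (mu l j + y.1)) - if j = i then 1 else 0 := by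
      intro j
      by_cases d : j = i
      · subst d
        simp only [true_or, if_true, ← c, mu_self]
        linear_combination (-1) * hxy2
      · simp [d, ← c]
    simp only [this, sum_sub_distrib, tot, sum_ite_eq', mem_univ, if_true]
    decide
  · have : ∀ j : Fin (4 * t), (if j = i ∨ j = l then 0 else (mu i j + x.1) + (mu l j + y.1) : ZMod 2) =
        ((mu i j + x.1) + (mu l j + y.1)) - (if j = i then (x.1 : ZMod 2) + (mu l i + y.1) else 0)
          - (if j = l then (mu i l + x.1 : ZMod 2) + y.1 else 0) := by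
      intro j
      by_cases d : j = i
      · subst d
        simp [c, mu_self]
      · by_cases d' : j = l
        · subst d'
          simp [d, mu_self]
        · simp [d, d']
    simp only [this, sum_sub_distrib, tot, sum_ite_eq', mem_univ, if_true]
    have := mu_sym i l (fun h => c (Fin.ext h))
    linear_combination (-1) * this - (1 + (x.1 : ZMod 2) + y.1) * two

theorem upper (t : ℕ) : ∃ m ≤ 4 * t * (4 * t), OddCover (8 * t) m := by
  have dj : ∀ j, Disjoint (sd t 0 j) (sd t 1 j) := by
    intro j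
    rw [disjoint_left]
    intro x h0 h1
    have := (mem_filter.1 h0).2.2.symm.trans (mem_filter.1 h1).2.2
    exact absurd this (by decide)
  have := of_fam (ι := Fin (4 * t) × Fin (4 * t)) (fun p => sd t 0 p.1) (fun p => sd t 1 p.1)
    (fun p => sd t 0 p.2) (fun p => sd t 1 p.2) (fun p => ⟨dj _, dj _⟩) (by
      intro x y z w hxy hzw
      rw [← univ_product_univ, filter_product (fun j => InE (sd t 0 j) (sd t 1 j) x y)
        (fun j => InE (sd t 0 j) (sd t 1 j) z w), card_product]
      exact (single t x y hxy).mul (single t z w hzw))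
  simpa using this

theorem bounds (n : ℕ) : OddCover n (g n) ∧ 4 * g n ≤ (8 * ((n + 7) / 8)) ^ 2 := by
  obtain ⟨m, hm, hc⟩ := upper ((n + 7) / 8)
  obtain ⟨m', hm', hc'⟩ := restrict (show n ≤ 8 * ((n + 7) / 8) by omega) hc
  have h1 : g n ≤ m' := Nat.sInf_le hc'
  exact ⟨Nat.sInf_mem (⟨m', hc'⟩ : {m | OddCover n m}.Nonempty), by nlinarith⟩

theorem result :
    (∀ n : ℕ, OddCover n (g n)) ∧
    (∀ n : ℕ, (n / 2) ^ 2 ≤ g n) ∧
    (∀ n : ℕ, 8 ∣ n → g n = (n / 2) ^ 2) ∧
    Tendsto (fun n : ℕ => (g n : ℝ) / (n : ℝ) ^ 2) atTop (𝓝 (1 / 4)) := by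
  have lo : ∀ n : ℕ, (n / 2) ^ 2 ≤ g n := by
    intro n
    obtain ⟨m, hm, hc⟩ := restrict (show 2 * (n / 2) ≤ n by omega) (bounds n).1
    have := lower ⟨n / 2, by ring⟩ hc
    nlinarith
  refine ⟨fun n => (bounds n).1, lo, ?_, ?_⟩
  · rintro n ⟨t, rfl⟩
    have h1 := (bounds (8 * t)).2
    have h2 := lo (8 * t)
    rw [show (8 * t + 7) / 8 = t by omega] at h1
    rw [show 8 * t / 2 = 4 * t by omega] at h2 ⊢
    nlinarith
  · have hi : Tendsto (fun n : ℕ => (n : ℝ)⁻¹) atTop (𝓝 0) := tendsto_inv_atTop_nhds_zero_nat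
    have l1 : Tendsto (fun n : ℕ => (1 - (n : ℝ)⁻¹) ^ 2 / 4) atTop (𝓝 (1 / 4)) := by
      simpa using ((hi.const_sub 1).pow 2).div_const 4
    have l2 : Tendsto (fun n : ℕ => (1 + 7 * (n : ℝ)⁻¹) ^ 2 / 4) atTop (𝓝 (1 / 4)) := by
      simpa using (((hi.const_mul 7).const_add 1).pow 2).div_const 4
    refine tendsto_of_tendsto_of_tendsto_of_le_of_le' l1 l2 ?_ ?_
    · filter_upwards [eventually_ge_atTop 1] with n hn
      obtain ⟨k, rfl⟩ : ∃ k, n = k + 1 := ⟨n - 1, by omega⟩
      have h1 : k ^ 2 ≤ 4 * g (k + 1) := by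
        have := lo (k + 1)
        have h2 : k ≤ 2 * ((k + 1) / 2) := by omega
        nlinarith [Nat.pow_le_pow_left h2 2]
      have h3 : (k : ℝ) ^ 2 ≤ 4 * g (k + 1) := by exact_mod_cast h1
      push_cast
      rw [div_le_div_iff₀ (by norm_num) (by positivity)]
      have : (1 - ((k : ℝ) + 1)⁻¹) ^ 2 * ((k : ℝ) + 1) ^ 2 = k ^ 2 := by field_simp; ring
      linarith
    · filter_upwards [eventually_ge_atTop 1] with n hn
      have h1 : 4 * g n ≤ (n + 7) ^ 2 :=
        (bounds n).2.trans (Nat.pow_le_pow_left (by omega) 2)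
      have h3 : 4 * (g n : ℝ) ≤ (n + 7) ^ 2 := by exact_mod_cast h1
      have n0 : (0 : ℝ) < n := by exact_mod_cast hn
      rw [div_le_div_iff₀ (by positivity) (by norm_num)]
      have : (1 + 7 * (n : ℝ)⁻¹) ^ 2 * (n : ℝ) ^ 2 = (n + 7) ^ 2 := by field_simp
      linarith

end Pool.Agent.Results.MP_cb2837_co.Quarter
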